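import Pool.Agent.Helper55.FQ.Defs
import Pool.Agent.Helper84.GD.PD

/-!
# Project FQ (MP_0f6f3f_an, full question), layer CONV: one region and one distance for everybody

`ofGp S : Helper43.FQ.Gp`: the gap functions of helper84's `GDL.Gp`; `chR_nil`: the stratum of the chain `J :: []` is helper43's stratum `reg J` (equality of `Reg`), `one_eq`: the stratum of type `j`.
For `D : GD 𝔾 (Fin r)` and a discrete subgroup `Γ`: `fin_mu` (finiteness), `gp_eq` (`gp D Γ hf` = the gap functions of `D.gp Γ`), `one_gp`, `tendsto_mu`, `psh_reg`, `plf_reg` (the properties of the distance `D.pd j Γ`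
over the strata `(gp D Γ hf).reg J`, `j ∉ J`).
-/

set_option autoImplicit false
set_option linter.unusedSectionVars false

open Filter Topology

namespace Pool.Agent.Helper57.FQ

open Pool.Agent.Helper84.GN Pool.Agent.Helper84.GN.S3 Pool.Agent.Helper78.BM
open Pool.Agent.Helper84.GDL (GD)
open Pool.Agent.Helper43.FQ (Gp)
open Pool.Agent.Helper55.FQ (gp gG)

section Gap

variable {G : Type} [Group G] {r : ℕ}

/-- Gap functions are equal if the gaps are. -/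
theorem gp_ext {A B : Gp G r} (h : ∀ γ l, A.gap γ l = B.gap γ l) : A = B := by
  obtain ⟨a, h1, h2, h3⟩ := A
  obtain ⟨b, h4, h5, h6⟩ := B
  have h7 : a = b := funext fun γ => funext fun l => h γ l
  subst h7
  rfl

/-- Two regions are equal if the sets and the filters are. -/
theorem reg_ext {R S : Reg G} (hW : ∀ n, R.W n = S.W n) (hF : ∀ n, R.F n = S.F n) : R = S := by
  obtain ⟨W, F, h1, h2, h3⟩ := R
  obtain ⟨W', F', h4, h5, h6⟩ := S
  have h7 : W = W' := funext hW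
  have h8 : F = F' := funext hF
  subst h7 h8
  rfl

/-- The gap functions in the form of helper43. -/
def ofGp (S : Pool.Agent.Helper84.GDL.Gp G (Fin r)) : Gp G r where
  gap := S.β
  nonneg := S.nonneg
  gshift g h := by
    obtain ⟨C, hC⟩ := S.shift g h
    obtain ⟨C', hC'⟩ := exists_nat_ge C
    refine ⟨C', fun γ l => ?_⟩
    have h1 := abs_le.1 ((hC γ l).trans hC')
    constructor <;> linarith [h1.1, h1.2]
  gfin n := S.fin n

theorem ofGp_gap (S : Pool.Agent.Helper84.GDL.Gp G (Fin r)) (γ : G) (l : Fin r) : (ofGp S).gap γ l = S.β γ l := rfl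

/-- The filters of the strata. -/
theorem FC_nil (S : Pool.Agent.Helper84.GDL.Gp G (Fin r)) (J : Finset (Fin r)) (n : ℕ) :
    S.FC J [] n = (ofGp S).FF J n := by
  ext A
  rw [S.mem_FC, Gp.mem_FF]
  constructor
  · rintro ⟨m, hm⟩
    obtain ⟨m', hm'⟩ := exists_nat_ge ((m : ℝ) * (1 + r * n))
    refine ⟨m', fun γ hγ => hm ⟨hγ.1, fun I hI j hj => ?_⟩⟩
    rw [List.mem_singleton] at hI
    subst hI
    have h1 : ∑ i ∈ I, S.β γ i ≤ r * n := by
      calc ∑ i ∈ I, S.β γ i ≤ ∑ _i ∈ I, (n : ℝ) := Finset.sum_le_sum fun i hi => hγ.1 i hi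
        _ = I.card * n := by rw [Finset.sum_const, nsmul_eq_mul]
        _ ≤ r * n := by
          refine mul_le_mul_of_nonneg_right ?_ (Nat.cast_nonneg n)
          have h2 := Finset.card_le_univ I
          rw [Fintype.card_fin] at h2
          exact_mod_cast h2
    calc (m : ℝ) * (1 + ∑ i ∈ I, S.β γ i) ≤ m * (1 + r * n) :=
          mul_le_mul_of_nonneg_left (by linarith) (Nat.cast_nonneg m)
      _ ≤ m' := hm'
      _ ≤ S.β γ j := hγ.2 j hj
  · rintro ⟨m, hm⟩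
    refine ⟨m, fun γ hγ => hm ⟨hγ.1, fun j hj => ?_⟩⟩
    have h1 := hγ.2 J (List.mem_singleton.2 rfl) j hj
    have h2 := S.sum_nonneg γ J
    have h3 : (m : ℝ) * 1 ≤ m * (1 + ∑ i ∈ J, S.β γ i) := mul_le_mul_of_nonneg_left (by linarith) (Nat.cast_nonneg m)
    exact ((mul_one (m : ℝ)).symm.le.trans h3).trans h1

/-- The strata without scale separation. -/
theorem chR_nil (S : Pool.Agent.Helper84.GDL.Gp G (Fin r)) (J : Finset (Fin r)) : S.chR J [] = (ofGp S).reg J :=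
  reg_ext (fun _ => rfl) fun n => FC_nil S J n

/-- The stratum of type `j`. -/
theorem one_eq (S : Pool.Agent.Helper84.GDL.Gp G (Fin r)) (j : Fin r) : S.one j = (ofGp S).reg (Finset.univ.erase j) :=
  chR_nil S _

end Gap

section Sub

variable {𝔾 : Type} [Group 𝔾] [TopologicalSpace 𝔾] [IsTopologicalGroup 𝔾] {r : ℕ} (D : GD 𝔾 (Fin r)) (Γ : Subgroup 𝔾)

/-- The sets of bounded gaps of a discrete subgroup are finite. -/
theorem fin_mu [T2Space 𝔾] [DiscreteTopology Γ] (R : ℝ) : {k : Γ | ∀ i, D.mu (k : 𝔾) i ≤ R}.Finite := (D.gp Γ).fin R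

theorem gp_eq [T2Space 𝔾] [DiscreteTopology Γ] (hf : ∀ R : ℝ, {k : Γ | ∀ i, D.mu (k : 𝔾) i ≤ R}.Finite) :
    ofGp (D.gp Γ) = gp D Γ hf := gp_ext fun _ _ => rfl

theorem chR_gp [T2Space 𝔾] [DiscreteTopology Γ] (hf : ∀ R : ℝ, {k : Γ | ∀ i, D.mu (k : 𝔾) i ≤ R}.Finite) (J : Finset (Fin r)) :
    (D.gp Γ).chR J [] = (gp D Γ hf).reg J := by rw [chR_nil, gp_eq]

/-- **One region of type `j`.** -/
theorem one_gp [T2Space 𝔾] [DiscreteTopology Γ] (hf : ∀ R : ℝ, {k : Γ | ∀ i, D.mu (k : 𝔾) i ≤ R}.Finite) (j : Fin r) :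
    (D.gp Γ).one j = (gp D Γ hf).reg (Finset.univ.erase j) := chR_gp D Γ hf _

variable {D Γ}

/-- The gaps outside of `J` tend to infinity over the stratum of `J`. -/
theorem tendsto_mu (hf : ∀ R : ℝ, {k : Γ | ∀ i, D.mu (k : 𝔾) i ≤ R}.Finite) {J : Finset (Fin r)} {j : Fin r} (hj : j ∉ J) (n : ℕ) :
    Tendsto (fun γ : Γ => D.mu (γ : 𝔾) j) (((gp D Γ hf).reg J).F n) atTop := (gp D Γ hf).tendsto_gap J n hj

theorem psh_reg (hf : ∀ R : ℝ, {k : Γ | ∀ i, D.mu (k : 𝔾) i ≤ R}.Finite) {J : Finset (Fin r)} {j : Fin r} (hj : j ∉ J) :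
    PSh ((gp D Γ hf).reg J) (D.pd j Γ) := D.psh j Γ _ fun n => tendsto_mu hf hj n

theorem plf_reg (hf : ∀ R : ℝ, {k : Γ | ∀ i, D.mu (k : 𝔾) i ≤ R}.Finite) {J : Finset (Fin r)} {j : Fin r} (hj : j ∉ J) :
    PLf ((gp D Γ hf).reg J) (D.pd j Γ) := D.plf j Γ _ fun n => tendsto_mu hf hj n

theorem psh_one (hf : ∀ R : ℝ, {k : Γ | ∀ i, D.mu (k : 𝔾) i ≤ R}.Finite) (j : Fin r) :
    PSh ((gp D Γ hf).reg (Finset.univ.erase j)) (D.pd j Γ) := psh_reg hf (Finset.notMem_erase j _)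

theorem plf_one (hf : ∀ R : ℝ, {k : Γ | ∀ i, D.mu (k : 𝔾) i ≤ R}.Finite) (j : Fin r) :
    PLf ((gp D Γ hf).reg (Finset.univ.erase j)) (D.pd j Γ) := plf_reg hf (Finset.notMem_erase j _)

/-- The bounded part of the stratum. -/
theorem mem_W (hf : ∀ R : ℝ, {k : Γ | ∀ i, D.mu (k : 𝔾) i ≤ R}.Finite) {j : Fin r} {n : ℕ} {γ : Γ} :
    γ ∈ ((gp D Γ hf).reg (Finset.univ.erase j)).W n ↔ ∀ i, i ≠ j → D.mu (γ : 𝔾) i ≤ n := by
  constructor
  · exact fun h i hi => h i (Finset.mem_erase.2 ⟨hi, Finset.mem_univ _⟩)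
  · exact fun h i hi => h i (Finset.mem_erase.1 hi).1

/-- The neighbourhoods of infinity of the stratum of type `j`. -/
theorem mem_F (hf : ∀ R : ℝ, {k : Γ | ∀ i, D.mu (k : 𝔾) i ≤ R}.Finite) {j : Fin r} {n : ℕ} {A : Set Γ} :
    A ∈ ((gp D Γ hf).reg (Finset.univ.erase j)).F n ↔
      ∃ L : ℝ, ∀ γ : Γ, (∀ i, i ≠ j → D.mu (γ : 𝔾) i ≤ n) → L ≤ D.mu (γ : 𝔾) j → γ ∈ A := by
  constructor
  · intro h
    obtain ⟨m, hm⟩ := (gp D Γ hf).mem_FF.1 h
    refine ⟨m, fun γ h1 h2 => hm ⟨fun i hi => h1 i (Finset.mem_erase.1 hi).1, fun i hi => ?_⟩⟩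
    have hij : i = j := by
      by_contra hne
      exact hi (Finset.mem_erase.2 ⟨hne, Finset.mem_univ _⟩)
    rw [hij]
    exact h2
  · rintro ⟨L, hL⟩
    obtain ⟨m, hm⟩ := exists_nat_ge L
    refine (gp D Γ hf).mem_FF.2 ⟨m, fun γ hγ => hL γ (fun i hi => hγ.1 i (Finset.mem_erase.2 ⟨hi, Finset.mem_univ _⟩)) ?_⟩
    exact hm.trans (hγ.2 j (Finset.notMem_erase j _))

end Sub

end Pool.Agent.Helper57.FQ
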